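import Pool.Agent.Helper60.HB.Skel

/-!
# Chains of algebraic numbers of small size which represent powers of a unit
-/

set_option autoImplicit false

open NumberField

namespace Pool.Agent.Helper85.HB

open Pool.Agent.Helper60.HB

theorem chn_dvd {K : Type} [Field K] [NumberField K] (a : 𝓞 K) :
    a ∣ (((Algebra.norm ℤ a).natAbs : ℕ) : 𝓞 K) := by
  have h := Ideal.absNorm_mem (Ideal.span ({a} : Set (𝓞 K)))
  rw [Ideal.absNorm_span_singleton, Ideal.mem_span_singleton] at h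
  exact h

theorem chn_prod {F : Type} [Field F] (a : ℕ → F) (ha0 : a 0 = 1) (hne : ∀ j, a j ≠ 0) (B : ℕ)
    (C : ℕ → ℤ) (s : ℕ) :
    ∏ k ∈ Finset.range (s + 1), (a k ^ B / a (k + 1)) ^ (-C k) =
      (∏ k ∈ Finset.range s, a (k + 1) ^ (C k - B * C (k + 1))) * a (s + 1) ^ C s := by
  induction s with
  | zero =>
    rw [Finset.prod_range_one, Finset.prod_range_zero, ha0, one_pow, one_mul, one_div, inv_zpow, zpow_neg,
      inv_inv]
  | succ s ih =>
    have h : (a (s + 1) ^ B / a (s + 1 + 1)) ^ (-C (s + 1)) =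
        a (s + 1) ^ (-(B * C (s + 1))) * a (s + 1 + 1) ^ C (s + 1) := by
      rw [div_zpow, div_eq_mul_inv, ← zpow_neg (a (s + 1 + 1)), neg_neg, ← zpow_natCast (a (s + 1)) B, ← zpow_mul]
      congr 2
      ring
    rw [Finset.prod_range_succ, ih, Finset.prod_range_succ _ s, h, zpow_sub₀ (hne _), zpow_neg]
    field_simp

theorem chn_digits (B s V : ℕ) : ∑ k ∈ Finset.range s, (V / B ^ k % B) * B ^ k = V % B ^ s := by
  induction s with
  | zero => simp [Nat.mod_one]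
  | succ s ih => rw [Finset.sum_range_succ, ih, Nat.mod_pow_succ, mul_comm (V / B ^ s % B)]

/-- the sequence `a` -/
theorem chn_seq (K : Type) [Field K] [NumberField K] (Δ : ℝ) (hMP : MP K Δ) (s : ℕ) (η : (𝓞 K)ˣ) (B : ℕ)
    (hB : 1 ≤ B) :
    ∃ a : ℕ → 𝓞 K, a 0 = 1 ∧ a (s + 1) = (η : 𝓞 K) ∧ (∀ j, a j ≠ 0) ∧
      (∀ j, (((Algebra.norm ℤ (a j)).natAbs : ℕ) : ℝ) ≤ Real.exp Δ) ∧
      ∀ j, 1 ≤ j → ∀ w : InfinitePlace K,
        |Real.log (w (a j : K)) - (B : ℝ) ^ j / (B : ℝ) ^ (s + 1) * Real.log (w ((η : 𝓞 K) : K))| ≤ Δ := by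
  have hΔ := hMP.1
  have h1e : (1 : ℝ) ≤ Real.exp Δ := by
    rw [← Real.exp_zero]
    exact Real.exp_le_exp.2 (by linarith)
  have hB0 : (0 : ℝ) < (B : ℝ) := by exact_mod_cast hB
  have key : ∀ j : ℕ, ∃ a : 𝓞 K, (j = 0 → a = 1) ∧ (j = s + 1 → a = (η : 𝓞 K)) ∧ a ≠ 0 ∧
      ((((Algebra.norm ℤ a).natAbs : ℕ) : ℝ) ≤ Real.exp Δ) ∧
      (1 ≤ j → ∀ w : InfinitePlace K,
        |Real.log (w (a : K)) - (B : ℝ) ^ j / (B : ℝ) ^ (s + 1) * Real.log (w ((η : 𝓞 K) : K))| ≤ Δ) := by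
    intro j
    rcases Nat.eq_zero_or_pos j with h0 | h0
    · refine ⟨1, fun _ => rfl, fun h => by omega, one_ne_zero, ?_, fun h => by omega⟩
      rw [map_one]
      simpa using h1e
    · by_cases hs : j = s + 1
      · refine ⟨(η : 𝓞 K), fun h => by omega, fun _ => rfl, η.ne_zero, ?_, fun _ w => ?_⟩
        · have h2 : (Algebra.norm ℤ (η : 𝓞 K)).natAbs = 1 := by
            have h3 : IsUnit (Algebra.norm ℤ (η : 𝓞 K)) := η.isUnit.map (Algebra.norm ℤ)
            exact Int.isUnit_iff_natAbs_eq.1 h3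
          rw [h2]
          simpa using h1e
        · rw [hs, div_self (by positivity), one_mul, sub_self, abs_zero]
          linarith
      · obtain ⟨a, h1, h2, h3⟩ := hMP.2
          (fun w => (B : ℝ) ^ j / (B : ℝ) ^ (s + 1) * Real.log (w ((η : 𝓞 K) : K))) (by
            have h4 := Units.sum_mult_mul_log η
            calc ∑ w : InfinitePlace K, (w.mult : ℝ) *
                  ((B : ℝ) ^ j / (B : ℝ) ^ (s + 1) * Real.log (w ((η : 𝓞 K) : K)))
                = (B : ℝ) ^ j / (B : ℝ) ^ (s + 1) *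
                    ∑ w : InfinitePlace K, (w.mult : ℝ) * Real.log (w ((η : 𝓞 K) : K)) := by
                  rw [Finset.mul_sum]
                  exact Finset.sum_congr rfl fun w _ => by ring
              _ = 0 := by rw [h4, mul_zero])
        exact ⟨a, fun h => by omega, fun h => absurd h hs, h1, h2, fun _ => h3⟩
  choose a h1 h2 h3 h4 h5 using key
  exact ⟨a, h1 0 rfl, h2 (s + 1) rfl, h3, h4, h5⟩

theorem chn_size {K : Type} [Field K] [NumberField K] (Δ : ℝ) (hΔ : 1 ≤ Δ) (s : ℕ) (η : (𝓞 K)ˣ) (B : ℕ)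
    (hB : 1 ≤ B) (hη : ∀ w : InfinitePlace K, |Real.log (w ((η : 𝓞 K) : K))| ≤ (B : ℝ) ^ (s + 1))
    (a : ℕ → 𝓞 K) (ha0 : a 0 = 1)
    (hat : ∀ j, 1 ≤ j → ∀ w : InfinitePlace K,
      |Real.log (w (a j : K)) - (B : ℝ) ^ j / (B : ℝ) ^ (s + 1) * Real.log (w ((η : 𝓞 K) : K))| ≤ Δ)
    (k : ℕ) (w : InfinitePlace K) :
    |B * Real.log (w (a k : K)) - Real.log (w (a (k + 1) : K))| ≤ (B + 1) * Δ := by
  have hB1 : (1 : ℝ) ≤ (B : ℝ) := by exact_mod_cast hB
  have hB0 : (0 : ℝ) < (B : ℝ) := by linarith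
  have h1 := hat (k + 1) (by omega) w
  rcases Nat.eq_zero_or_pos k with h0 | h0
  · rw [h0] at h1 ⊢
    have h2 : Real.log (w ((a 0 : 𝓞 K) : K)) = 0 := by
      rw [ha0]
      simp
    rw [h2, mul_zero, zero_sub, abs_neg]
    have h3 : |(B : ℝ) ^ (0 + 1) / (B : ℝ) ^ (s + 1) * Real.log (w ((η : 𝓞 K) : K))| ≤ B := by
      rw [abs_mul, abs_of_nonneg (by positivity : (0 : ℝ) ≤ (B : ℝ) ^ (0 + 1) / (B : ℝ) ^ (s + 1))]
      calc (B : ℝ) ^ (0 + 1) / (B : ℝ) ^ (s + 1) * |Real.log (w ((η : 𝓞 K) : K))|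
          ≤ (B : ℝ) ^ (0 + 1) / (B : ℝ) ^ (s + 1) * (B : ℝ) ^ (s + 1) :=
            mul_le_mul_of_nonneg_left (hη w) (by positivity)
        _ = B := by
            rw [div_mul_cancel₀ _ (by positivity), zero_add, pow_one]
    have h4 := abs_le.1 h1
    have h5 := abs_le.1 h3
    rw [abs_le]
    constructor <;> nlinarith
  · have h2 := hat k h0 w
    have h3 : (B : ℝ) * Real.log (w (a k : K)) - Real.log (w (a (k + 1) : K)) =
        B * (Real.log (w (a k : K)) - (B : ℝ) ^ k / (B : ℝ) ^ (s + 1) * Real.log (w ((η : 𝓞 K) : K))) -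
        (Real.log (w (a (k + 1) : K)) -
          (B : ℝ) ^ (k + 1) / (B : ℝ) ^ (s + 1) * Real.log (w ((η : 𝓞 K) : K))) := by
      rw [pow_succ (B : ℝ) k]
      ring
    rw [h3]
    have h4 := abs_le.1 h1
    have h5 := abs_le.1 h2
    rw [abs_le]
    constructor <;> nlinarith

theorem st_CHN : ST_CHN := by
  intro K _ _ Δ hMP s η lam B hB hη hlam
  obtain ⟨a, ha0, has, hane, hanorm, hat⟩ := chn_seq K Δ hMP s η B hB
  have hΔ := hMP.1
  have hB1 : (1 : ℝ) ≤ (B : ℝ) := by exact_mod_cast hB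
  have hB0 : (0 : ℝ) < (B : ℝ) := by linarith
  have hηB : ∀ w : InfinitePlace K, |Real.log (w ((η : 𝓞 K) : K))| ≤ (B : ℝ) ^ (s + 1) :=
    fun w => (hη w).trans hlam
  have hsz := chn_size Δ hΔ s η B hB hηB a ha0 hat
  have hAne : ∀ j, ((a j : 𝓞 K) : K) ≠ 0 := fun j => by
    simpa using hane j
  have hn1 : ∀ j, 1 ≤ (Algebra.norm ℤ (a j)).natAbs := fun j =>
    Int.natAbs_pos.2 (Algebra.norm_ne_zero_iff.2 (hane j))
  have hnlog : ∀ j, Real.log (((Algebra.norm ℤ (a j)).natAbs : ℕ) : ℝ) ≤ Δ := fun j => by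
    have h1 : (0 : ℝ) < (((Algebra.norm ℤ (a j)).natAbs : ℕ) : ℝ) := by exact_mod_cast hn1 j
    rw [Real.log_le_iff_le_exp h1]
    exact hanorm j
  have hn0 : ∀ j, (((Algebra.norm ℤ (a j)).natAbs : ℕ) : ℝ) ≠ 0 := fun j => by
    have := hn1 j
    positivity
  choose b hb using fun j => chn_dvd (a j)
  have hbK : ∀ j, (((Algebra.norm ℤ (a j)).natAbs : ℕ) : K) = (a j : K) * (b j : K) := fun j => by
    have h1 := congrArg (fun z : 𝓞 K => (z : K)) (hb j)
    simpa using h1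
  have hlog : ∀ (k : ℕ) (w : InfinitePlace K), Real.log (w ((a k : K) ^ B / (a (k + 1) : K))) =
      B * Real.log (w (a k : K)) - Real.log (w (a (k + 1) : K)) := by
    intro k w
    have h1 : w (a k : K) ≠ 0 := (InfinitePlace.pos_iff.2 (hAne k)).ne'
    have h2 : w (a (k + 1) : K) ≠ 0 := (InfinitePlace.pos_iff.2 (hAne (k + 1))).ne'
    rw [map_div₀, map_pow, Real.log_div (pow_ne_zero _ h1) h2, Real.log_pow]
  refine ⟨fun k => (a k : K) ^ B / (a (k + 1) : K), fun k => ⟨?_, ?_, ?_⟩, ?_⟩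
  · exact div_ne_zero (pow_ne_zero _ (hAne _)) (hAne _)
  · refine ⟨(Algebra.norm ℤ (a (k + 1))).natAbs * (Algebra.norm ℤ (a k)).natAbs ^ B, ?_, ?_, ?_, ?_⟩
    · exact Nat.one_le_iff_ne_zero.2 (mul_ne_zero (by have := hn1 (k + 1); omega)
        (pow_ne_zero _ (by have := hn1 k; omega)))
    · push_cast
      rw [Real.log_mul (by exact_mod_cast hn0 (k + 1)) (pow_ne_zero _ (by exact_mod_cast hn0 k)), Real.log_pow]
      have h1 := hnlog (k + 1)
      have h2 := mul_le_mul_of_nonneg_left (hnlog k) hB0.le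
      linarith
    · have h1 : (((Algebra.norm ℤ (a (k + 1))).natAbs * (Algebra.norm ℤ (a k)).natAbs ^ B : ℕ) : K) *
          ((a k : K) ^ B / (a (k + 1) : K)) =
          ((b (k + 1) * (((Algebra.norm ℤ (a k)).natAbs : ℕ) : 𝓞 K) ^ B * a k ^ B : 𝓞 K) : K) := by
        rw [Nat.cast_mul, hbK (k + 1)]
        have h2 := hAne (k + 1)
        push_cast
        field_simp
      rw [h1]
      exact RingOfIntegers.isIntegral_coe _
    · have h1 : (((Algebra.norm ℤ (a (k + 1))).natAbs * (Algebra.norm ℤ (a k)).natAbs ^ B : ℕ) : K) *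
          ((a k : K) ^ B / (a (k + 1) : K))⁻¹ =
          (((((Algebra.norm ℤ (a (k + 1))).natAbs : ℕ) : 𝓞 K) * a (k + 1) * b k ^ B : 𝓞 K) : K) := by
        rw [Nat.cast_mul, Nat.cast_pow, hbK k, mul_pow]
        have h2 := hAne k
        push_cast
        field_simp
      rw [h1]
      exact RingOfIntegers.isIntegral_coe _
  · intro τ
    have h1 : ‖τ ((a k : K) ^ B / (a (k + 1) : K))‖ =
        (InfinitePlace.mk τ) ((a k : K) ^ B / (a (k + 1) : K)) := rfl
    rw [h1, hlog]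
    exact hsz k _
  · intro x
    -- the integer and fractional parts
    obtain ⟨u, y, hxu, hy0, hy1⟩ : ∃ (u : ℤ) (y : ℝ), x = u + y ∧ 0 ≤ y ∧ y < 1 :=
      ⟨⌊x⌋, Int.fract x, (Int.floor_add_fract x).symm, Int.fract_nonneg x, Int.fract_lt_one x⟩
    have hBs : (0 : ℝ) < (B : ℝ) ^ s := by positivity
    obtain ⟨V, hV1, hV2⟩ : ∃ V : ℕ, (V : ℝ) ≤ y * (B : ℝ) ^ s ∧ y * (B : ℝ) ^ s < V + 1 :=
      ⟨⌊y * (B : ℝ) ^ s⌋₊, Nat.floor_le (by positivity), Nat.lt_floor_add_one _⟩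
    have hV3 : V < B ^ s := by
      have h1 : (V : ℝ) < (B : ℝ) ^ s := by nlinarith
      exact_mod_cast h1
    have hu : |(u : ℝ)| ≤ |x| + 1 := by
      have h1 : (u : ℝ) = x - y := by rw [hxu]; ring
      rw [h1]
      calc |x - y| ≤ |x| + |y| := abs_sub _ _
        _ ≤ |x| + 1 := by
            rw [abs_of_nonneg hy0]
            linarith
    -- the coefficients
    obtain ⟨C, hC⟩ : ∃ C : ℕ → ℤ, ∀ k, C k = ((V / B ^ k : ℕ) : ℤ) + u * (B : ℤ) ^ (s - k) := ⟨_, fun _ => rfl⟩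
    have hCs : C s = u := by
      rw [hC, Nat.div_eq_of_lt hV3, Nat.sub_self, pow_zero]
      simp
    have hCd : ∀ k, k < s → C k - B * C (k + 1) = ((V / B ^ k % B : ℕ) : ℤ) := by
      intro k hk
      rw [hC, hC]
      have h1 : s - k = (s - (k + 1)) + 1 := by omega
      rw [h1, pow_succ (B : ℤ)]
      have h2 : V / B ^ (k + 1) = V / B ^ k / B := by rw [pow_succ, Nat.div_div_eq_div_mul]
      rw [h2]
      have h3 : ((V / B ^ k : ℕ) : ℤ) = ((V / B ^ k % B : ℕ) : ℤ) + (B : ℤ) * ((V / B ^ k / B : ℕ) : ℤ) := by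
        have h4 := Nat.mod_add_div (V / B ^ k) B
        exact_mod_cast h4.symm
      rw [h3]
      ring
    have hprod : ∏ k : Fin (s + 1), ((a k : K) ^ B / (a (k + 1) : K)) ^ (-C k) =
        (∏ k ∈ Finset.range s, (a (k + 1) : K) ^ (V / B ^ k % B)) * ((η : 𝓞 K) : K) ^ u := by
      have h1 := chn_prod (fun j => (a j : K)) (by rw [ha0]; simp) hAne B C s
      rw [Finset.prod_range] at h1
      rw [h1, hCs, has]
      congr 1
      refine Finset.prod_congr rfl fun k hk => ?_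
      rw [hCd k (Finset.mem_range.1 hk), zpow_natCast]
    have hdig : ∑ k ∈ Finset.range s, ((V / B ^ k % B : ℕ) : ℝ) * (B : ℝ) ^ k = V := by
      have h1 := chn_digits B s V
      rw [Nat.mod_eq_of_lt hV3] at h1
      exact_mod_cast h1
    have hdlt : ∀ k, ((V / B ^ k % B : ℕ) : ℝ) ≤ B - 1 := by
      intro k
      have h1 : V / B ^ k % B < B := Nat.mod_lt _ (by omega)
      have h2 : ((V / B ^ k % B : ℕ) : ℝ) + 1 ≤ B := by exact_mod_cast h1
      linarith
    obtain ⟨E1, hE1⟩ : ∃ E : 𝓞 K, (E : K) = ((η : 𝓞 K) : K) ^ u :=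
      ⟨((η ^ u : (𝓞 K)ˣ) : 𝓞 K), NumberField.Units.coe_zpow (K := K) η u⟩
    obtain ⟨E2, hE2⟩ : ∃ E : 𝓞 K, (E : K) = (((η : 𝓞 K) : K) ^ u)⁻¹ :=
      ⟨((η ^ (-u) : (𝓞 K)ˣ) : 𝓞 K), by
        have h1 := NumberField.Units.coe_zpow (K := K) η (-u)
        rw [← zpow_neg]
        exact h1⟩
    refine ⟨fun k => -C k, fun k => ?_, fun w => ?_, ?_⟩
    · have h1 : ((-C k : ℤ) : ℝ) = -(((V / B ^ (k : ℕ) : ℕ) : ℝ) + u * (B : ℝ) ^ (s - (k : ℕ))) := by
        rw [hC, Int.cast_neg, Int.cast_add, Int.cast_natCast, Int.cast_mul, Int.cast_pow, Int.cast_natCast]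
      rw [h1, abs_neg]
      have h2 : ((V / B ^ (k : ℕ) : ℕ) : ℝ) ≤ (B : ℝ) ^ s := by
        have h3 : V / B ^ (k : ℕ) ≤ B ^ s := (Nat.div_le_self _ _).trans hV3.le
        exact_mod_cast h3
      have h4 : (B : ℝ) ^ (s - (k : ℕ)) ≤ (B : ℝ) ^ s := pow_le_pow_right₀ hB1 (Nat.sub_le _ _)
      have h5 : (0 : ℝ) < (B : ℝ) ^ (s - (k : ℕ)) := by positivity
      calc |((V / B ^ (k : ℕ) : ℕ) : ℝ) + u * (B : ℝ) ^ (s - (k : ℕ))|
          ≤ |((V / B ^ (k : ℕ) : ℕ) : ℝ)| + |u * (B : ℝ) ^ (s - (k : ℕ))| := abs_add_le _ _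
        _ = ((V / B ^ (k : ℕ) : ℕ) : ℝ) + |(u : ℝ)| * (B : ℝ) ^ (s - (k : ℕ)) := by
            rw [abs_mul, abs_of_pos h5, abs_of_nonneg (Nat.cast_nonneg _)]
        _ ≤ (B : ℝ) ^ s + (|x| + 1) * (B : ℝ) ^ s :=
            add_le_add h2 (mul_le_mul hu h4 h5.le (by positivity))
        _ = (|x| + 2) * (B : ℝ) ^ s := by ring
    · rw [hprod]
      have hw0 : ∀ j, w (a j : K) ≠ 0 := fun j => (InfinitePlace.pos_iff.2 (hAne j)).ne'
      have hwη : w ((η : 𝓞 K) : K) ≠ 0 := by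
        have := hw0 (s + 1)
        rwa [has] at this
      have h1 : Real.log (w ((∏ k ∈ Finset.range s, (a (k + 1) : K) ^ (V / B ^ k % B)) *
          ((η : 𝓞 K) : K) ^ u)) =
          (∑ k ∈ Finset.range s, ((V / B ^ k % B : ℕ) : ℝ) * Real.log (w (a (k + 1) : K))) +
            u * Real.log (w ((η : 𝓞 K) : K)) := by
        rw [map_mul, map_prod, map_zpow₀, Real.log_mul
          (Finset.prod_ne_zero_iff.2 fun k _ => by rw [map_pow]; exact pow_ne_zero _ (hw0 _))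
          (zpow_ne_zero _ hwη), Real.log_prod (fun k _ => by rw [map_pow]; exact pow_ne_zero _ (hw0 _)),
          Real.log_zpow]
        congr 1
        exact Finset.sum_congr rfl fun k _ => by rw [map_pow, Real.log_pow]
      rw [h1]
      have h2 : (∑ k ∈ Finset.range s, ((V / B ^ k % B : ℕ) : ℝ) * Real.log (w (a (k + 1) : K))) +
          u * Real.log (w ((η : 𝓞 K) : K)) - x * Real.log (w ((η : 𝓞 K) : K)) =
          (∑ k ∈ Finset.range s, ((V / B ^ k % B : ℕ) : ℝ) * (Real.log (w (a (k + 1) : K)) -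
            (B : ℝ) ^ (k + 1) / (B : ℝ) ^ (s + 1) * Real.log (w ((η : 𝓞 K) : K)))) +
          (V / (B : ℝ) ^ s - y) * Real.log (w ((η : 𝓞 K) : K)) := by
        have h3 : (V : ℝ) / (B : ℝ) ^ s = ∑ k ∈ Finset.range s, ((V / B ^ k % B : ℕ) : ℝ) *
            ((B : ℝ) ^ (k + 1) / (B : ℝ) ^ (s + 1)) := by
          rw [← hdig, Finset.sum_div]
          refine Finset.sum_congr rfl fun k _ => ?_
          rw [pow_succ, pow_succ]
          field_simp
        have h4 : (V : ℝ) / (B : ℝ) ^ s * Real.log (w ((η : 𝓞 K) : K)) =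
            ∑ k ∈ Finset.range s, ((V / B ^ k % B : ℕ) : ℝ) *
            ((B : ℝ) ^ (k + 1) / (B : ℝ) ^ (s + 1) * Real.log (w ((η : 𝓞 K) : K))) := by
          rw [h3, Finset.sum_mul]
          exact Finset.sum_congr rfl fun k _ => by ring
        rw [sub_mul, h4]
        simp only [mul_sub, Finset.sum_sub_distrib]
        rw [hxu]
        ring
      rw [h2]
      have h5 : |∑ k ∈ Finset.range s, ((V / B ^ k % B : ℕ) : ℝ) * (Real.log (w (a (k + 1) : K)) -
          (B : ℝ) ^ (k + 1) / (B : ℝ) ^ (s + 1) * Real.log (w ((η : 𝓞 K) : K)))| ≤ s * ((B - 1) * Δ) := by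
        calc _ ≤ ∑ k ∈ Finset.range s, |((V / B ^ k % B : ℕ) : ℝ) * (Real.log (w (a (k + 1) : K)) -
              (B : ℝ) ^ (k + 1) / (B : ℝ) ^ (s + 1) * Real.log (w ((η : 𝓞 K) : K)))| :=
              Finset.abs_sum_le_sum_abs _ _
          _ ≤ ∑ k ∈ Finset.range s, (B - 1) * Δ := by
              refine Finset.sum_le_sum fun k _ => ?_
              rw [abs_mul, abs_of_nonneg (Nat.cast_nonneg _)]
              exact mul_le_mul (hdlt k) (hat (k + 1) (by omega) w) (abs_nonneg _) (by linarith)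
          _ = s * ((B - 1) * Δ) := by
              rw [Finset.sum_const, Finset.card_range, nsmul_eq_mul]
      have h6 : |(V / (B : ℝ) ^ s - y) * Real.log (w ((η : 𝓞 K) : K))| ≤ B := by
        rw [abs_mul]
        have h7 : |(V : ℝ) / (B : ℝ) ^ s - y| ≤ 1 / (B : ℝ) ^ s := by
          have h8 : (V : ℝ) / (B : ℝ) ^ s ≤ y := by
            rw [div_le_iff₀ hBs]
            exact hV1
          have h9 : y ≤ (V : ℝ) / (B : ℝ) ^ s + 1 / (B : ℝ) ^ s := by
            rw [← add_div, le_div_iff₀ hBs]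
            exact hV2.le
          rw [abs_le]
          constructor
          · linarith
          · have : (0 : ℝ) < 1 / (B : ℝ) ^ s := by positivity
            linarith
        calc |(V : ℝ) / (B : ℝ) ^ s - y| * |Real.log (w ((η : 𝓞 K) : K))|
            ≤ 1 / (B : ℝ) ^ s * (B : ℝ) ^ (s + 1) :=
              mul_le_mul h7 (hηB w) (abs_nonneg _) (by positivity)
          _ = B := by
              rw [pow_succ]
              field_simp
      have hs0 : (0 : ℝ) ≤ (s : ℝ) := Nat.cast_nonneg s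
      have hsΔ : (0 : ℝ) ≤ s * Δ := by positivity
      calc _ ≤ _ := abs_add_le _ _
        _ ≤ s * ((B - 1) * Δ) + B := add_le_add h5 h6
        _ ≤ (s + 1) * B * Δ := by nlinarith
    · refine ⟨∏ k ∈ Finset.range s, (Algebra.norm ℤ (a (k + 1))).natAbs ^ (V / B ^ k % B), ?_, ?_, ?_, ?_⟩
      · exact Nat.one_le_iff_ne_zero.2 (Finset.prod_ne_zero_iff.2 fun k _ =>
          pow_ne_zero _ (by have := hn1 (k + 1); omega))
      · push_cast
        rw [Real.log_prod (fun k _ => pow_ne_zero _ (by exact_mod_cast hn0 (k + 1)))]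
        calc _ = ∑ k ∈ Finset.range s, ((V / B ^ k % B : ℕ) : ℝ) *
              Real.log (((Algebra.norm ℤ (a (k + 1))).natAbs : ℕ) : ℝ) := by
              refine Finset.sum_congr rfl fun k _ => ?_
              rw [Real.log_pow]
          _ ≤ ∑ k ∈ Finset.range s, (B * Δ) := by
              refine Finset.sum_le_sum fun k _ => ?_
              have h1 := hdlt k
              have h2 := hnlog (k + 1)
              have h3 : (0 : ℝ) ≤ ((V / B ^ k % B : ℕ) : ℝ) := Nat.cast_nonneg _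
              calc ((V / B ^ k % B : ℕ) : ℝ) * Real.log (((Algebra.norm ℤ (a (k + 1))).natAbs : ℕ) : ℝ)
                  ≤ ((V / B ^ k % B : ℕ) : ℝ) * Δ := mul_le_mul_of_nonneg_left h2 h3
                _ ≤ B * Δ := mul_le_mul_of_nonneg_right (by linarith) (by linarith)
          _ = s * B * Δ := by
              rw [Finset.sum_const, Finset.card_range, nsmul_eq_mul]
              ring
      · rw [hprod]
        have h1 : ((∏ k ∈ Finset.range s, (Algebra.norm ℤ (a (k + 1))).natAbs ^ (V / B ^ k % B) : ℕ) : K) *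
            ((∏ k ∈ Finset.range s, (a (k + 1) : K) ^ (V / B ^ k % B)) * ((η : 𝓞 K) : K) ^ u) =
            (((∏ k ∈ Finset.range s, (((Algebra.norm ℤ (a (k + 1))).natAbs : ℕ) : 𝓞 K) ^ (V / B ^ k % B)) *
              (∏ k ∈ Finset.range s, a (k + 1) ^ (V / B ^ k % B)) * E1 : 𝓞 K) : K) := by
          rw [← hE1]
          push_cast
          ring
        rw [h1]
        exact RingOfIntegers.isIntegral_coe _
      · rw [hprod]
        have h1 : ((∏ k ∈ Finset.range s, (Algebra.norm ℤ (a (k + 1))).natAbs ^ (V / B ^ k % B) : ℕ) : K) *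
            ((∏ k ∈ Finset.range s, (a (k + 1) : K) ^ (V / B ^ k % B)) * ((η : 𝓞 K) : K) ^ u)⁻¹ =
            (((∏ k ∈ Finset.range s, b (k + 1) ^ (V / B ^ k % B)) * E2 : 𝓞 K) : K) := by
          have h2 : ((∏ k ∈ Finset.range s, (Algebra.norm ℤ (a (k + 1))).natAbs ^ (V / B ^ k % B) : ℕ) : K) =
              (∏ k ∈ Finset.range s, (a (k + 1) : K) ^ (V / B ^ k % B)) *
              (∏ k ∈ Finset.range s, (b (k + 1) : K) ^ (V / B ^ k % B)) := by
            rw [Nat.cast_prod, ← Finset.prod_mul_distrib]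
            refine Finset.prod_congr rfl fun k _ => ?_
            rw [Nat.cast_pow, hbK, mul_pow]
          have h3 : (∏ k ∈ Finset.range s, (a (k + 1) : K) ^ (V / B ^ k % B)) ≠ 0 :=
            Finset.prod_ne_zero_iff.2 fun k _ => pow_ne_zero _ (hAne _)
          have h4 : ((η : 𝓞 K) : K) ^ u ≠ 0 := zpow_ne_zero _ (by have := hAne (s + 1); rwa [has] at this)
          have h6 : (((∏ k ∈ Finset.range s, b (k + 1) ^ (V / B ^ k % B)) * E2 : 𝓞 K) : K) =
              (∏ k ∈ Finset.range s, (b (k + 1) : K) ^ (V / B ^ k % B)) * (E2 : K) := by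
            push_cast
            rfl
          rw [h2, h6, hE2]
          field_simp
        rw [h1]
        exact RingOfIntegers.isIntegral_coe _

end Pool.Agent.Helper85.HB
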